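import Mathlib
import Pool.Agent.J4.H61.FA.Artin

/-!
# Quotients of Dedekind zeta functions attached to families of Galois subfields

`Pool.Agent.H541R3.ART.ArtinData G s₀` is a family of functions with the formal properties of the
Artin L-functions of a Galois extension `E/K` with group `G` near a point `s₀ ≠ 1`: functions
`L χ` for the irreducible characters `χ` of `G`, meromorphic and not identically zero near `s₀`
(Brauer), and `Lin H ψ` for the linear characters `ψ` of the subgroups `H`, without pole at `s₀`
(Artin reciprocity and Hecke), such that `Lin H ψ` is the product of the `L χ ^ ⟨χ|_H, ψ⟩`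
(induction). In particular `Lin H 1` stands for the Dedekind zeta function of the fixed field of
`H`, and `Lin H ψ` for a Hecke L-function of this field.

Let `F_1, …, F_n` be ANY Galois extensions of `K` inside `E`, `N_i = Gal(E/F_i)`. For a set `S` of
indices let `F_S` be the intersection of the `F_i`, `i ∈ S`, and `F_∅ = E`; its group is the product
`N_S` of the `N_i`, that is `S.sup N`. Call a character of a subgroup `U` new if it is nontrivial on
`U ∩ N_i` for every `i`.

(1) The quotient `∏_S ζ_{F_S} ^ ((-1)^|S|)` (for `n = 2`: `ζ_E ζ_{F_1 ∩ F_2} / (ζ_{F_1} ζ_{F_2})`) is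
the product of the `L(s, χ) ^ χ(1)` over the new irreducible characters of `G`, and it has no pole
at `s₀`.

(2) If it has no zero at `s₀` (the zeros of `ζ_E` at `s₀` come from the `F_i`), then for every new
irreducible character `χ` of `G` the function `L(s, χ)` has neither a zero nor a pole at `s₀`, the
same is true for the L-functions of the new linear characters of all subgroups, and
`∏_S ζ_{L ∩ F_S} ^ ((-1)^|S|)` has neither a zero nor a pole at `s₀`, for every field `L` between
`K` and `E`.

(3) If moreover `F_i ∩ F_j = K` for `i ≠ j`, then the order of `ζ_L / ζ_K` at `s₀` is the sum of the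
orders of the `ζ_{L ∩ F_i} / ζ_K`, for every `L`. So the question for `L / K` is reduced to the
subextensions of the `F_i / K`.

For `n = 1`, (1) is the theorem of Aramata and Brauer.

The proof is in `Pool.Agent.J4.H61.FA`. It is by induction on `n` and on the order of `G`. If
`N_i ∩ N_j = M ≠ 1` for some `i ≠ j`, then the characters which are trivial on `M` belong to `G / M`,
and the others are new if and only if they are new for the family with `M` in place of `N_i` and
`N_j`. If `N_1` meets all the others trivially, then it commutes with them; for every subgroup `V` of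
`N_1` and every linear character `χ` of `V` the `χ`-part of the Heilbronn function is a Heilbronn
function on the centralizer of `N_1`, and so, by induction, the part of the Heilbronn function which
is new for `N_2, …, N_n` is a Heilbronn function on `N_1`, and its mean is at most its value at `1`.
The case of equality uses Brauer's induction theorem relative to families of normal subgroups
(`Pool.Agent.J4.H61.DP.family_brauer`).
-/

set_option autoImplicit false

namespace Pool.Agent.Results.MP_9fc8a5_nt.GaloisFamilies

open Pool.Agent.H541R3.ART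

/-- The irreducible characters of `G` which are nontrivial on all the normal subgroups `N i`. -/
def NewIrr {G : Type} [Group G] {n : ℕ} (N : Fin n → Subgroup G) : Set (G → ℂ) :=
  {χ | χ ∈ Irr G ∧ ∀ i, ∃ k ∈ N i, χ k ≠ χ 1}

/-- The order at `s₀` of `∏_S ζ_{L ∩ F_S} ^ ((-1)^|S|)`, where `L` is the fixed field of `U` and `z`
are the orders of the zeta functions. -/
def altOrder {G : Type} [Group G] {n : ℕ} (N : Fin n → Subgroup G) (z : Subgroup G → ℤ)
    (U : Subgroup G) : ℤ :=
  ∑ S : Finset (Fin n), (-1) ^ S.card * z (U ⊔ S.sup N)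

theorem result (G : Type) [Group G] [Finite G] (s₀ : ℂ) (A : ArtinData G s₀)
    -- the orders of the zeta functions
    (z : Subgroup G → ℤ)
    (hz : ∀ U, meromorphicOrderAt (A.Lin U 1) s₀ = (z U : WithTop ℤ))
    -- the degrees of the irreducible characters
    (d : (G → ℂ) → ℕ) (hd : ∀ χ ∈ Irr G, χ 1 = d χ)
    -- the normal subgroups
    (n : ℕ) (N : Fin n → Subgroup G) (hN : ∀ i, (N i).Normal) :
    -- (1)
    (meromorphicOrderAt (fun s => ∏ᶠ χ ∈ NewIrr N, A.L χ s ^ d χ) s₀
        = (altOrder N z ⊥ : WithTop ℤ)) ∧
    0 ≤ altOrder N z ⊥ ∧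
    -- (2)
    (altOrder N z ⊥ = 0 →
      (∀ χ ∈ NewIrr N, meromorphicOrderAt (A.L χ) s₀ = 0) ∧
      (∀ (U : Subgroup G) (ψ : U →* ℂˣ), (∀ i, ∃ u : U, (u : G) ∈ N i ∧ ψ u ≠ 1) →
        meromorphicOrderAt (A.Lin U ψ) s₀ = 0) ∧
      (∀ U : Subgroup G, altOrder N z U = 0) ∧
      -- (3)
      ((∀ i j, i ≠ j → N i ⊔ N j = ⊤) →
        ∀ U : Subgroup G, z U - z ⊤ = ∑ i, (z (U ⊔ N i) - z ⊤))) := by
  classical
  have e0 : altOrder N z ⊥ = ∑ S : Finset (Fin n), (-1) ^ S.card * z (S.sup N) := by
    unfold altOrder
    exact Finset.sum_congr rfl fun S _ => by rw [bot_sup_eq]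
  obtain ⟨h1, h2, h3⟩ := Pool.Agent.J4.H61.FA.galois_families N A hN z hz d hd
  rw [e0]
  refine ⟨h1, h2, fun h0 => ?_⟩
  obtain ⟨h4, h5, h6⟩ := h3 h0
  refine ⟨h4, h5, h6, fun hpair U => ?_⟩
  rcases Nat.eq_zero_or_pos n with rfl | hn
  · have h7 := h6 U
    have h8 := h6 ⊤
    have hdef : (default : Finset (Fin 0)) = ∅ := Subsingleton.elim _ _
    rw [Fintype.sum_unique, hdef] at h7 h8
    simp only [Finset.card_empty, pow_zero, Finset.sup_empty, sup_bot_eq, one_mul] at h7 h8
    rw [h7, h8]
    simp
  · have : Nonempty (Fin n) := ⟨⟨0, hn⟩⟩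
    have h7 := h6 U
    have h8 : ∑ S : Finset (Fin n), (-1 : ℤ) ^ S.card * z ⊤ = 0 := by
      rw [← Finset.sum_mul]
      have h9 : ∑ S ∈ (Finset.univ : Finset (Fin n)).powerset, (-1 : ℤ) ^ S.card = 0 :=
        Finset.sum_powerset_neg_one_pow_card_of_nonempty Finset.univ_nonempty
      rw [Finset.powerset_univ] at h9
      rw [h9, zero_mul]
    have h9 : ∑ S : Finset (Fin n), (-1 : ℤ) ^ S.card * (z (U ⊔ S.sup N) - z ⊤) = 0 := by
      simp only [mul_sub, Finset.sum_sub_distrib, h7, h8, sub_zero]
    have h10 : ∑ S : Finset (Fin n), (-1 : ℤ) ^ S.card * (z (U ⊔ S.sup N) - z ⊤)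
        = ∑ S ∈ insert ∅ (Finset.univ.image fun i : Fin n => ({i} : Finset (Fin n))),
          (-1 : ℤ) ^ S.card * (z (U ⊔ S.sup N) - z ⊤) := by
      symm
      refine Finset.sum_subset (Finset.subset_univ _) fun S _ hS => ?_
      rw [Finset.mem_insert, not_or, Finset.mem_image] at hS
      have h11 : 1 < S.card := by
        by_contra hcon
        have h12 : S.card = 0 ∨ S.card = 1 := by omega
        rcases h12 with h12 | h12
        · exact hS.1 (Finset.card_eq_zero.mp h12)
        · obtain ⟨i, hi⟩ := Finset.card_eq_one.mp h12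
          exact hS.2 ⟨i, Finset.mem_univ _, hi.symm⟩
      obtain ⟨i, hi, j, hj, hij⟩ := Finset.one_lt_card.mp h11
      have h12 : S.sup N = ⊤ := by
        rw [eq_top_iff, ← hpair i j hij]
        exact sup_le (Finset.le_sup hi) (Finset.le_sup hj)
      rw [h12, sup_top_eq, sub_self, mul_zero]
    rw [h10, Finset.sum_insert, Finset.sum_image] at h9
    · simp only [Finset.card_empty, pow_zero, one_mul, Finset.sup_empty, sup_bot_eq,
        Finset.card_singleton, pow_one, Finset.sup_singleton, neg_mul, Finset.sum_neg_distrib]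
        at h9
      linarith
    · intro i _ j _ h
      exact Finset.singleton_injective h
    · rw [Finset.mem_image]
      rintro ⟨i, -, hi⟩
      exact Finset.singleton_ne_empty i hi

end Pool.Agent.Results.MP_9fc8a5_nt.GaloisFamilies
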