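import Pool.Agent.J4.H41.PL.Lay

/-!
# Quotients of Dedekind zeta functions: cyclically permuted commuting groups

`Pool.Agent.H541R3.ART.ArtinData G s₀` is a family of functions with the formal properties of the
Artin L-functions of a Galois extension `E/K` with group `G` near a point `s₀ ≠ 1`: functions
`L χ` for the irreducible characters `χ` of `G`, meromorphic and not identically zero near `s₀`
(Brauer), and `Lin H ψ` for the linear characters `ψ` of the subgroups `H`, without pole at `s₀`
(Artin reciprocity and Hecke), such that `Lin H ψ` is the product of the `L χ ^ ⟨χ|_H, ψ⟩`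
(induction). In particular `Lin H 1` stands for the Dedekind zeta function of the fixed field of
`H`.

`Pool.Agent.J4.H41.PL.Layer H H'` says that `H ≤ H'` is of one of the following two kinds.
* Abelian: `H' = H N`, with `M ≤ H`, where `M` and `N` are normalized by `H'` and `N` is commutative
  modulo `M`.
* Cyclically permuted: `H'` is generated by `H` and a subgroup `A`, there are `M ≤ W ≤ H` with `M`
  normalized by `H'`, `W` normalized by `H`, `H / W` cyclic (generated by `t`), and modulo `M`
  the elements of `W` commute with those of `A`, and the elements of `A` with those of all conjugates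
  `h A h⁻¹`, `h ∈ H`, `h ∉ W`. The group `A` is arbitrary.

Examples of the second kind. `H` normal in `H'` (`M = W = H`, `A = H'`): the Galois case.
`H' = B ≀ C` with `C` cyclic permuting the factors regularly, `B` an arbitrary finite group, `H = C`.
Let `K/k` be quadratic, `M/K` any Galois extension, `M̄` its conjugate over `k`, `t` an involution in
`Gal(M M̄ / k)` which is not trivial on `K`: `H = ⟨t⟩` and `A = Gal(M M̄ / M)`; the fixed field of `H'`
is `(M ∩ M̄)^t`.

Idea of the proof. Let `θ` be the Heilbronn function at `s₀`. After averaging over `M` one may
replace `H'` by `A^I ⋊ V` with `I = V / W` cyclic. For `v ∈ V` and `S ⊆ I` let `T_v(S)` be the mean of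
`θ(x v)` over the `x ∈ A^I` supported in `S`; it only depends on the orbits of `v` which meet `S`.
The set `I = ℤ/n` is ordered in such a way that for every `j ∈ I` the set `D` of the `v` for which `j` is
minimal in its orbit under `v` is a subgroup under which `j` is minimal too. If `S` consists
of the elements before `j`, then `T_v(S ∪ {j}) = T_v(S)` for `v ∉ D`, and
`∑_{v ∈ D} T_v(S ∪ {j}) ≤ ∑_{v ∈ D} T_v(S)`: for `z ∈ A` in the position `j` one expands along
`⟨z⟩^{D j}`, and the Fourier coefficients are sums of the same kind, over the stabilizer of a
character, for another Heilbronn function and fewer coordinates; they are nonnegative by induction.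
-/

set_option autoImplicit false

namespace Pool.Agent.Results.MP_9fc8a5_nt.PermutedLayers

open Pool.Agent.H541R3.ART Pool.Agent.J4.H41.PL

/-- Let `H ≤ H'` be subgroups of the Galois group `G` of `E/K` which are joined by a chain of abelian
and cyclically permuted layers. Then for all linear characters `ρ` of `H'` the order at `s₀` of the
L-function of `ρ` over `E^H'` is at most the order of the L-function of `ρ|_H` over `E^H`; for `ρ = 1`:
the quotient `ζ_{E^H} / ζ_{E^H'}` has no pole at `s₀`. -/
theorem result (G : Type) [Group G] [Finite G] (s₀ : ℂ) (A : ArtinData G s₀) (H H' : Subgroup G)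
    (h : Relation.ReflTransGen Layer H H') : ∃ hle : H ≤ H', ∀ ρ : H' →* ℂˣ,
      meromorphicOrderAt (A.Lin H' ρ) s₀
        ≤ meromorphicOrderAt (A.Lin H (ρ.comp (Subgroup.inclusion hle))) s₀ :=
  ⟨tower_le h, fun ρ => tower A h ρ⟩

end Pool.Agent.Results.MP_9fc8a5_nt.PermutedLayers
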