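import Mathlib
import Pool.Agent.J4.H5.PA.Adm

/-!
# The Dedekind conjecture for product actions with an arbitrary top group

`Pool.Agent.H541R3.ART.ArtinData G s₀` is a family of functions with the formal properties of the
Artin L-functions of a Galois extension `E/K` with group `G` near a point `s₀ ≠ 1`: functions
`L χ` for the irreducible characters `χ` of `G`, meromorphic and not identically zero near `s₀`
(Brauer), and `Lin H ψ` for the linear characters `ψ` of the subgroups `H`, without pole at `s₀`
(Artin reciprocity and Hecke), such that `Lin H ψ` is the product of the `L χ ^ ⟨χ|_H, ψ⟩`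
(induction). So `Lin H ψ` stands for the L-function over the field `E ^ H` of the Hecke character
`ψ`, and `Lin H 1` for the Dedekind zeta function of `E ^ H`. Every finite extension `L/F` of number
fields is `E ^ V / E ^ M` for a Galois extension `E/K` and subgroups `V ≤ M` of its group.

`Pool.Agent.J4.H5.PA.Adm V`, for a subgroup `V` of a finite group `Γ`, says that the pair `(Γ, V)`
belongs to the smallest class of pairs such that (the names are those of the constructors):
* `prod`: let `(H, U)` be in the class and let `Γ` act on a finite set `I` by `σ` and on the set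
  `(H / U) ^ I` by the `α g i ∈ H`, where `α (g h) i = α g (σ h i) α h i` (this is a homomorphism of
  `Γ` to the wreath product of `H` by the symmetric group of `I`). If this action is transitive and
  `V` is the stabilizer of the base point, that is, `g ∈ V` if and only if all the `α g i` are in
  `U`, then `(Γ, V)` is in the class. The group of the permutations of `I` by `Γ` is arbitrary;
* `tower`: `V ≤ W ≤ Γ` with `(W, V)` and `(Γ, W)` in the class;
* `inter`: `(Γ, V)` and `(Γ, W)` in the class with `V W = Γ` give `(Γ, V ∩ W)`;
* `comap`: inverse images of `V` under homomorphisms `φ : Γ' → Γ` with `φ(Γ') V = Γ`;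
* `solv`: `N` and `B` are normal in `Γ`, `N ≤ V`, `V B = Γ`, and `B N / N` is solvable;
* `normal`: `V` is normal and `Γ / V` is solvable, alternating, or `SL₂(2 ^ k)` with `k ≥ 2`
  (`Factor`); with `tower` this gives all subnormal subgroups with such factors;
* `sym`: `Γ` is a symmetric group and `V` has order at most two;
* `sl`: `Γ` permutes by conjugation pairwise commuting subgroups `T i`, `i ∈ I`, isomorphic to
  `SL₂(2 ^ k)`, `k ≥ 2`, the automorphisms of the `T i` induced by `Γ` are in a group of
  automorphisms in which the inner ones have odd index, and `V` is the stabilizer of a family of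
  Sylow `r`-subgroups of the `T i`, `r` a prime divisor of `2 ^ k + 1`. (`Comps Γ T I` consists of
  embeddings `e i : T → Γ` with pairwise commuting and pairwise different images, an action `σ` of
  `Γ` on `I` and automorphisms `α g i` of `T` with `e (σ g i) (α g i x) = g (e i x) g⁻¹`.)
-/

set_option autoImplicit false

open Pool.Agent.J4.H5.PA Pool.Agent.H541R3.ART Filter Topology

/-- Let `E/K` be Galois with group `G`, `V ≤ M ≤ G`, `L = E ^ V`, `F = E ^ M`, and let the pair
`(M, V)` be in the class `Adm`. Then `ζ_L / ζ_F` is a product of Hecke L-functions: there are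
intermediate fields `E ^ (H i)` of `E/F` and linear characters `ψ i` of the `H i` with
`ζ_L = ζ_F ∏ L(s, ψ i)`, and in the same way for the twists by every linear character `ρ` of `M`
(`ρ = 1` is the case of the zeta functions). So the quotient of the two functions has no pole at
`s₀`, at a zero of `ζ_F` of any order. -/
theorem Pool.Agent.Results.MP_9fc8a5_nt.ProductActions.result
    (G : Type) [Group G] [Finite G] (M V : Subgroup G) (hVM : V ≤ M) (h : Adm (V.subgroupOf M)) :
    ∃ (r : ℕ) (H : Fin r → Subgroup G) (hH : ∀ i, H i ≤ M) (ψ : ∀ i, H i →* ℂˣ),
      ∀ (s₀ : ℂ) (A : ArtinData G s₀) (ρ : M →* ℂˣ),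
        (A.Lin V (ρ.comp (Subgroup.inclusion hVM)) =ᶠ[𝓝[≠] s₀] fun s =>
          A.Lin M ρ s * ∏ i, A.Lin (H i) (ψ i * ρ.comp (Subgroup.inclusion (hH i))) s) ∧
        meromorphicOrderAt (A.Lin M ρ) s₀
          ≤ meromorphicOrderAt (A.Lin V (ρ.comp (Subgroup.inclusion hVM))) s₀ :=
  h.oneMon.hecke M V hVM
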