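import Mathlib
import Pool.Agent.J4.H61.FA.Sol3

/-!
# Quotients of Dedekind zeta functions attached to a non-Galois field and a family of Galois fields

`Pool.Agent.H541R3.ART.ArtinData G s₀` is a family of functions with the formal properties of the
Artin L-functions of a Galois extension `E/K` with group `G` near a point `s₀ ≠ 1`: functions
`L χ` for the irreducible characters `χ` of `G`, meromorphic and not identically zero near `s₀`
(Brauer), and `Lin H ψ` for the linear characters `ψ` of the subgroups `H`, without pole at `s₀`
(Artin reciprocity and Hecke), such that `Lin H ψ` is the product of the `L χ ^ ⟨χ|_H, ψ⟩`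
(induction). In particular `Lin H 1` stands for the Dedekind zeta function of the fixed field of
`H`, and `Lin H ψ` for a Hecke L-function of this field.

Let `F_1, …, F_n` be Galois extensions of `K` inside `E` such that the groups `N_i = Gal(E/F_i)` are
solvable (for instance any Galois subfields, if `E/K` is solvable). For a set `S` of indices let
`F_S` be the intersection of the `F_i`, `i ∈ S`, and `F_∅ = E`; its group is `S.sup N`. For a field
`L` between `K` and `E` put `Z_L = ∏_S ζ_{L ∩ F_S} ^ ((-1)^|S|)`, and more generally, for a linear
character `ρ` of `G` (a Hecke character of `K`), let `Z_L` be the same product of the L-functions of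
the restrictions of `ρ`.

(1) `Z_L` has no pole at `s₀`, for every field `L` between `K` and `E`, Galois or not.

(2) If `L ⊆ L'` and `Gal(E/L)` is solvable, then `Z_{L'} / Z_L` has no pole at `s₀`.

For `n = 0`, (2) is the theorem of Uchida and van der Waall: `ζ_{L'} / ζ_L` has no pole. For `n = 1`
and `L' = L F` it says, for `E/K` solvable, `F/K` Galois and `L/K` arbitrary, that
`ζ_{L F} ζ_{L ∩ F} / (ζ_L ζ_F)` has no pole.

The proof is in `Pool.Agent.J4.H61.FA`. It is by induction on `n` and on the order of `G`. Let `A` be
a minimal normal subgroup of `G` inside `N_1`; it is abelian. The part of the Heilbronn function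
which is invariant under `A` belongs to `G / A`. For the other part the `N_i` which contain `A` can
be omitted, and the others commute with `A`. Its `λ`-component, for a nontrivial character `λ` of `A`,
vanishes on the elements of a subgroup `U` which do not fix `λ`, and on the stabilizer of `λ` it
comes from a Heilbronn function, to which the induction hypothesis applies.
-/

set_option autoImplicit false

namespace Pool.Agent.Results.MP_9fc8a5_nt.SolvableFamilies

open Pool.Agent.H541R3.ART

/-- The order at `s₀` of the product `Z_L` of the `ζ_{L ∩ F_S} ^ ((-1)^|S|)`, where `L` is the fixed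
field of `U` and `z` are the orders of the zeta functions (or L-functions). -/
def altOrder {G : Type} [Group G] {n : ℕ} (N : Fin n → Subgroup G) (z : Subgroup G → ℤ)
    (U : Subgroup G) : ℤ :=
  ∑ S : Finset (Fin n), (-1) ^ S.card * z (U ⊔ S.sup N)

theorem result (G : Type) [Group G] [Finite G] (s₀ : ℂ) (A : ArtinData G s₀)
    -- a Hecke character of the ground field; `ρ = 1` gives the zeta functions
    (ρ : G →* ℂˣ)
    -- the orders of the L-functions of its restrictions
    (z : Subgroup G → ℤ)
    (hz : ∀ U, meromorphicOrderAt (A.Lin U (ρ.comp U.subtype)) s₀ = (z U : WithTop ℤ))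
    -- the solvable normal subgroups
    (n : ℕ) (N : Fin n → Subgroup G) (hN : ∀ i, (N i).Normal)
    (hs : ∀ i, Group.IsSolvable (N i)) :
    -- (1)
    (∀ U : Subgroup G, 0 ≤ altOrder N z U) ∧
    -- (2)
    ∀ U V : Subgroup G, U ≤ V → Group.IsSolvable V → altOrder N z V ≤ altOrder N z U :=
  Pool.Agent.J4.H61.FA.solvable_families A N hN hs ρ z hz

end Pool.Agent.Results.MP_9fc8a5_nt.SolvableFamilies
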